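import Pool.Agent.Helper97.CS.Final

/-!
# Crossing steps of fixed point free maps of nonseparating plane continua

For a fixed point free map `f` of a nonseparating plane continuum `K` the displacement `f z - z` has
a continuous angle `Θ` on `K` (Eilenberg). Every nonempty closed set `M` with `f(M) ⊆ M` contains
two points `z, w` such that the segments from `z` to `f z` and from `w` to `f w` meet although
`Θ z` and `Θ w` differ by at least `π`.
-/

namespace Pool.Agent.Results.MP_fe7296_gt.CrossingSteps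

open Set

/-- `Θ` is a continuous angle of the displacement `f a - a` on `K`. -/
def IsAngle (K : Set ℂ) (f : ℂ → ℂ) (Θ : ℂ → ℝ) : Prop :=
  ContinuousOn Θ K ∧ ∀ a ∈ K, f a - a = ‖f a - a‖ * Complex.exp (Θ a * Complex.I)

/-- Let `K` be a compact plane set with connected complement and `f` continuous on `K` without fixed
point in `K`. Then `f a - a` has a continuous angle on `K`; and for every continuous angle `Θ` and
every nonempty closed `M ⊆ K` with `f(M) ⊆ M` there are `z, w ∈ M` such that the segments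
`[z, f z]` and `[w, f w]` meet and `|Θ z - Θ w| ≥ π`. -/
theorem result (K : Set ℂ) (hK : IsCompact K) (hKc : IsConnected Kᶜ) (f : ℂ → ℂ)
    (hf : ContinuousOn f K) (h0 : ∀ z ∈ K, f z ≠ z) :
    (∃ Θ : ℂ → ℝ, IsAngle K f Θ) ∧
    ∀ Θ : ℂ → ℝ, IsAngle K f Θ → ∀ M ⊆ K, M.Nonempty → IsClosed M → MapsTo f M M →
      ∃ z ∈ M, ∃ w ∈ M, (segment ℝ z (f z) ∩ segment ℝ w (f w)).Nonempty ∧
        Real.pi ≤ |Θ z - Θ w| := by
  refine ⟨?_, ?_⟩
  · obtain ⟨Θ, cΘ, eΘ⟩ := Pool.Agent.Helper34.Plane.exists_angle hK hKc.isPreconnected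
      (hf.sub continuousOn_id) (fun z hz => sub_ne_zero.mpr (h0 z hz))
    exact ⟨Θ, cΘ, eΘ⟩
  · intro Θ hΘ M hMK hne hcl hfM
    exact Pool.Agent.Helper97.CS.crossing (hK.of_isClosed_subset hcl hMK) hne (hf.mono hMK) hfM
      (fun z hz => h0 z (hMK hz)) (hΘ.1.mono hMK) (fun z hz => hΘ.2 z (hMK hz))

/-- A fixed point theorem: suppose that any two points `z, w` of some nonempty closed `M ⊆ K` with
`f(M) ⊆ M` for which the segments `[z, f z]` and `[w, f w]` meet lie in a connected subset of `K` no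
point of which is moved by `f` in the direction opposite to `f z - z`. Then `f` has a fixed
point. -/
theorem fixed_point (K : Set ℂ) (hK : IsCompact K) (hKc : IsConnected Kᶜ) (f : ℂ → ℂ)
    (hf : ContinuousOn f K) (M : Set ℂ) (hMK : M ⊆ K) (hne : M.Nonempty) (hcl : IsClosed M)
    (hfM : MapsTo f M M)
    (H : ∀ z ∈ M, ∀ w ∈ M, (segment ℝ z (f z) ∩ segment ℝ w (f w)).Nonempty →
      ∃ A ⊆ K, IsPreconnected A ∧ z ∈ A ∧ w ∈ A ∧
        ∀ a ∈ A, ∀ r : ℝ, 0 < r → f a - a ≠ -r * (f z - z)) :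
    ∃ z ∈ K, f z = z := by
  by_contra hcon
  push Not at hcon
  obtain ⟨⟨Θ, hΘ⟩, h2⟩ := result K hK hKc f hf hcon
  obtain ⟨z, hz, w, hw, hm, hpi⟩ := h2 Θ hΘ M hMK hne hcl hfM
  obtain ⟨A, hAK, hA, hzA, hwA, hopp⟩ := H z hz w hw hm
  have key : ∀ a ∈ A, ∀ σ : ℝ, σ = 1 ∨ σ = -1 → Θ a ≠ Θ z + σ * Real.pi := by
    intro a ha σ hσ he
    have e1 := hΘ.2 a (hAK ha)
    have e2 := hΘ.2 z (hMK hz)
    have n1 : 0 < ‖f a - a‖ := norm_pos_iff.2 (sub_ne_zero.2 (hcon a (hAK ha)))
    have n2 : 0 < ‖f z - z‖ := norm_pos_iff.2 (sub_ne_zero.2 (hcon z (hMK hz)))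
    refine hopp a ha (‖f a - a‖ / ‖f z - z‖) (div_pos n1 n2) ?_
    have h3 : Complex.exp (Θ a * Complex.I) = -Complex.exp (Θ z * Complex.I) := by
      rw [he]
      push_cast
      rw [add_mul, Complex.exp_add]
      rcases hσ with h | h
      · rw [h]
        push_cast
        rw [one_mul, Complex.exp_pi_mul_I]
        ring
      · rw [h]
        push_cast
        rw [neg_one_mul, neg_mul, Complex.exp_neg, Complex.exp_pi_mul_I]
        ring
    have n3 : (‖f z - z‖ : ℂ) ≠ 0 := by exact_mod_cast n2.ne'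
    calc f a - a = ‖f a - a‖ * Complex.exp (Θ a * Complex.I) := e1
      _ = -((‖f a - a‖ / ‖f z - z‖ : ℝ) : ℂ) *
          (‖f z - z‖ * Complex.exp (Θ z * Complex.I)) := by
          rw [h3]
          push_cast
          field_simp
      _ = _ := by rw [← e2]
  have cA := hΘ.1.mono hAK
  rcases le_abs.1 hpi with h | h
  · obtain ⟨a, ha, hae⟩ := hA.intermediate_value hwA hzA cA
      (show Θ z - Real.pi ∈ Icc (Θ w) (Θ z) from
        ⟨by linarith, by linarith [Real.pi_pos]⟩)
    exact key a ha (-1) (Or.inr rfl) (by rw [hae]; ring)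
  · obtain ⟨a, ha, hae⟩ := hA.intermediate_value hzA hwA cA
      (show Θ z + Real.pi ∈ Icc (Θ z) (Θ w) from
        ⟨by linarith [Real.pi_pos], by linarith⟩)
    exact key a ha 1 (Or.inl rfl) (by rw [hae]; ring)

end Pool.Agent.Results.MP_fe7296_gt.CrossingSteps
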