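import Pool.Agent.Helper34.Plane.Main

/-!
Every continuous fixed point free map of a nonseparating plane continuum into itself has a point `z` with `f z`
strictly between `z` and `f (f z)`, and makes both left turns and right turns.
-/

namespace Pool.Agent.Results.MP_fe7296_gt.FixedPointFreeMaps

open Set

/-- Twice the signed area of the triangle `z, f z, f (f z)`: positive for a left turn at `f z`, negative for a
right turn, zero if the three points lie on a line. -/
def turn (f : ℂ → ℂ) (z : ℂ) : ℝ :=
  (f z - z).re * (f (f z) - f z).im - (f z - z).im * (f (f z) - f z).re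

/-- Let `K` be a compact plane set with connected complement, `f` continuous on `K` without fixed point in `K`,
and `X ⊆ K` a continuum with `f(X) ⊆ X` (for instance `X = K` a nonseparating plane continuum and
`f : K → K`). Then for every continuous `u : X → X` some `z ∈ X` has `f(u(z)) - u(z) = r (f(z) - z)` with
`r > 0`, and `turn f` takes positive and negative values on `X`. -/
theorem result (K X : Set ℂ) (hK : IsCompact K) (hKc : IsConnected Kᶜ) (hX : IsCompact X)
    (hXc : IsConnected X) (hXK : X ⊆ K) (f : ℂ → ℂ) (hf : ContinuousOn f K) (hfX : MapsTo f X X)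
    (h0 : ∀ z ∈ K, f z ≠ z) :
    (∀ u : ℂ → ℂ, ContinuousOn u X → MapsTo u X X →
      ∃ z ∈ X, ∃ r : ℝ, 0 < r ∧ f (u z) - u z = r * (f z - z)) ∧
    (∃ z ∈ X, 0 < turn f z) ∧ (∃ z ∈ X, turn f z < 0) :=
  Helper34.Plane.main hK hKc.isPreconnected hX hXc hXK hf hfX h0

/-- The case `u = f`: `f z` lies strictly between `z` and `f (f z)`. -/
theorem between (K : Set ℂ) (hK : IsCompact K) (hKc : IsConnected Kᶜ) (hKK : IsConnected K)
    (f : ℂ → ℂ) (hf : ContinuousOn f K) (hfK : MapsTo f K K) (h0 : ∀ z ∈ K, f z ≠ z) :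
    ∃ z ∈ K, ∃ t : ℝ, 0 < t ∧ t < 1 ∧ f z = (1 - t) * z + t * f (f z) := by
  obtain ⟨z, hz, r, hr, h⟩ := (result K K hK hKc hK hKK subset_rfl f hf hfK h0).1 f hf hfK
  refine ⟨z, hz, 1 / (1 + r), by positivity, ?_, ?_⟩
  · rw [div_lt_one (by linarith)]; linarith
  · have h1 : ((1 + r : ℝ) : ℂ) ≠ 0 := by exact_mod_cast (by linarith : (1 + r) ≠ 0)
    have h2 : (1 + (r : ℂ)) ≠ 0 := by exact_mod_cast h1
    push_cast
    field_simp
    linear_combination (-1 : ℂ) * h

end Pool.Agent.Results.MP_fe7296_gt.FixedPointFreeMaps
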