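import Pool.Agent.Helper97.CS.Trail

/-!
# Self-maps of plane compacta whose trail does not separate the plane

The trail of `f : K → K` is the union of the segments `[z, f z]`, `z ∈ K`. If it does not separate
the plane, then some point `y` of the trail is such that the displacements `f z - z` of the segments
`[z, f z]` through `y` lie in no open half-plane `{x | x · n > 0}`.
-/

namespace Pool.Agent.Results.MP_fe7296_gt.NonseparatingTrail

open Set

/-- Let `K` be a nonempty compact plane set and `f : K → K` continuous, and suppose that the union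
of the segments `[z, f z]`, `z ∈ K`, does not separate the plane. Then there is a point `y` such that
for every vector `n` some segment `[z, f z]`, `z ∈ K`, passes through `y` and has
`(f z - z) · n ≤ 0`. -/
theorem result (K : Set ℂ) (hK : IsCompact K) (hne : K.Nonempty) (f : ℂ → ℂ)
    (hf : ContinuousOn f K) (hfK : MapsTo f K K)
    (hS : IsConnected (⋃ z ∈ K, segment ℝ z (f z))ᶜ) :
    ∃ y : ℂ, ∀ n : ℂ, ∃ z ∈ K, y ∈ segment ℝ z (f z) ∧
      ((f z - z) * (starRingEnd ℂ) n).re ≤ 0 :=
  Pool.Agent.Helper97.CS.trail_thm hK hne hf hfK hS.isPreconnected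

/-- A fixed point theorem: if the union of the segments `[z, f z]` does not separate the plane and
through every point pass only segments whose displacements, if they are not zero, lie in an open
half-plane, then `f` has a fixed point. -/
theorem fixed_point (K : Set ℂ) (hK : IsCompact K) (hne : K.Nonempty) (f : ℂ → ℂ)
    (hf : ContinuousOn f K) (hfK : MapsTo f K K)
    (hS : IsConnected (⋃ z ∈ K, segment ℝ z (f z))ᶜ)
    (H : ∀ y : ℂ, ∃ n : ℂ, ∀ z ∈ K, y ∈ segment ℝ z (f z) → f z ≠ z →
      0 < ((f z - z) * (starRingEnd ℂ) n).re) :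
    ∃ z ∈ K, f z = z := by
  by_contra hcon
  push Not at hcon
  obtain ⟨y, hy⟩ := result K hK hne f hf hfK hS
  obtain ⟨n, hn⟩ := H y
  obtain ⟨z, hz, hm, hle⟩ := hy n
  exact absurd (hn z hz hm (hcon z hz)) (not_lt.2 hle)

end Pool.Agent.Results.MP_fe7296_gt.NonseparatingTrail
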