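import Pool.Agent.Helper97.BK.Cross

/-!
# Closed orbits of fixed point free maps of nonseparating plane continua

A continuous self-map of a nonseparating plane continuum with a point of period three whose orbit is
not on a line has a fixed point, or its backtracking points separate the continuum.
-/

namespace Pool.Agent.Results.MP_fe7296_gt.PeriodThree

open Set

/-- `z` is a backtracking point of `f`: `f (f z)` lies on the open ray from `f z` through `z`. -/
def Back (f : ℂ → ℂ) (z : ℂ) : Prop :=
  ∃ r : ℝ, 0 < r ∧ f (f z) - f z = r * (z - f z)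

/-- The exterior angle at `f z` of the path `z, f z, f (f z)`, in `(-π, π]`. -/
noncomputable def turnAngle (f : ℂ → ℂ) (z : ℂ) : ℝ :=
  Complex.arg ((f (f z) - f z) / (f z - z))

/-- Let `K` be a compact plane set with connected complement, `f` continuous on `K` without fixed
point in `K`, and `X ⊆ K` a continuum with `f(X) ⊆ X` (for instance `X = K` a nonseparating plane
continuum and `f : K → K`), and suppose that `X` minus the set of backtracking points is connected.
Then the total turning of the orbits without backtracking is bounded, and `0` for closed orbits;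
every closed orbit without backtracking points turns to both sides; every nonempty closed invariant
set `M ⊆ X` without backtracking points has two steps `[z, f z]`, `[w, f w]` which are not equal or
consecutive and meet (so a closed orbit without backtracking is not a simple polygon); and the orbit
of every point of period three lies on a line. -/
theorem result (K X : Set ℂ) (hK : IsCompact K) (hKc : IsConnected Kᶜ) (hX : IsCompact X)
    (hXc : IsConnected X) (hXK : X ⊆ K) (f : ℂ → ℂ) (hf : ContinuousOn f K) (hfX : MapsTo f X X)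
    (h0 : ∀ z ∈ K, f z ≠ z) (hB : IsPreconnected {z | z ∈ X ∧ ¬ Back f z}) :
    (∃ C : ℝ, ∀ z ∈ X, ∀ n : ℕ, (∀ i < n, ¬ Back f (f^[i] z)) →
      |∑ i ∈ Finset.range n, turnAngle f (f^[i] z)| ≤ C ∧
      (f^[n] z = z → ∑ i ∈ Finset.range n, turnAngle f (f^[i] z) = 0)) ∧
    (∀ z ∈ X, ∀ n : ℕ, 0 < n → f^[n] z = z → (∀ i < n, ¬ Back f (f^[i] z)) →
      (∃ i < n, 0 < turnAngle f (f^[i] z)) ∧ ∃ i < n, turnAngle f (f^[i] z) < 0) ∧
    (∀ M ⊆ X, M.Nonempty → IsClosed M → MapsTo f M M → (∀ z ∈ M, ¬ Back f z) →
      ∃ z ∈ M, ∃ w ∈ M, w ≠ z ∧ w ≠ f z ∧ z ≠ f w ∧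
        (segment ℝ z (f z) ∩ segment ℝ w (f w)).Nonempty) ∧
    ∀ z ∈ X, f (f (f z)) = z → ((f (f z) - f z) / (f z - z)).im = 0 :=
  Pool.Agent.Helper97.BK.final2 hK hKc.isPreconnected hX hXc hXK hf hfX h0 hB

/-- A continuous self-map of a nonseparating plane continuum with a point of period three whose orbit
is not on a line has a fixed point, or the backtracking points separate the continuum. -/
theorem period_three (K : Set ℂ) (hK : IsCompact K) (hKc : IsConnected Kᶜ) (hKK : IsConnected K)
    (f : ℂ → ℂ) (hf : ContinuousOn f K) (hfK : MapsTo f K K) (z : ℂ) (hz : z ∈ K)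
    (h3 : f (f (f z)) = z) (hl : ((f (f z) - f z) / (f z - z)).im ≠ 0) :
    (∃ w ∈ K, f w = w) ∨ ¬ IsPreconnected {w | w ∈ K ∧ ¬ Back f w} := by
  by_contra hcon
  push Not at hcon
  exact hl ((result K K hK hKc hK hKK subset_rfl f hf hfK hcon.1 hcon.2).2.2.2 z hz h3)

end Pool.Agent.Results.MP_fe7296_gt.PeriodThree
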